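import Pool.Agent.helper65.GF.SpecG

/-!
# bz:YG1: the coefficients of an odd starlike function
-/

set_option autoImplicit false

namespace Pool.Agent.GD

open Finset Metric Filter Topology

theorem YG1_sum (f : ℕ → ℂ) (k : ℕ) : ∑ m ∈ range (2 * k), f m = ∑ l ∈ range k, (f (2 * l) + f (2 * l + 1)) := by
  induction k with
  | zero => simp
  | succ k ih =>
    rw [Finset.sum_range_succ, ← ih]
    have e : 2 * (k + 1) = 2 * k + 1 + 1 := by ring
    rw [e, Finset.sum_range_succ, Finset.sum_range_succ]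
    ring

theorem YG1_even (G : ℂ → ℂ) (hG : OddStarl G) (k : ℕ) : N2b689f5b.coeff G (2 * k) = 0 := by
  have h1 : Ser (N2b689f5b.coeff G) G := CO1 G hG.starl.analytic
  have h2 : Ser (fun n => -((-1) ^ n * N2b689f5b.coeff G n)) G := by
    intro z hz
    have hz2 : -z ∈ ball (0 : ℂ) 1 := by
      rw [mem_ball_zero_iff] at hz ⊢
      rw [norm_neg]
      exact hz
    have h3 := (h1 (-z) hz2).neg
    rw [hG.odd z hz, neg_neg] at h3
    have e : (fun n : ℕ => -(N2b689f5b.coeff G n * (-z) ^ n)) =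
        fun n : ℕ => -((-1) ^ n * N2b689f5b.coeff G n) * z ^ n := by
      funext n
      rw [neg_pow z n]
      ring
    rw [e] at h3
    exact h3
  have h3 := congrFun (CO2 _ _ _ h1 h2) (2 * k)
  have h4 : (-1 : ℂ) ^ (2 * k) = 1 := by
    rw [pow_mul, neg_one_sq, one_pow]
  have h5 : N2b689f5b.coeff G (2 * k) = -((-1) ^ (2 * k) * N2b689f5b.coeff G (2 * k)) := h3
  rw [h4, one_mul] at h5
  have h6 : (2 : ℂ) * N2b689f5b.coeff G (2 * k) = 0 := by linear_combination h5
  exact (mul_eq_zero.1 h6).resolve_left two_ne_zero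

theorem YG1 : YG1_stmt := by
  intro G hG
  obtain ⟨b, hb, hc⟩ := h_XG1 G hG.starl
  have hd := hG.starl.deriv_ne
  have hrec := ex_rec 2 b
  have hodd : ∀ m : ℕ, ex 2 b (2 * m + 1) = 0 := by
    intro m
    have h1 := hc (2 * m + 1 + 1)
    rw [if_neg (by omega)] at h1
    have e : 2 * m + 1 + 1 = 2 * (m + 1) := by ring
    have h2 := YG1_even G hG (m + 1)
    rw [e, h2] at h1
    have e2 : 2 * (m + 1) - 1 = 2 * m + 1 := by omega
    rw [e2] at h1
    exact (mul_eq_zero.1 h1.symm).resolve_left hd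
  have hbodd : ∀ m : ℕ, b (2 * m + 1) = 0 := by
    intro m
    induction m using Nat.strong_induction_on with
    | _ m ih =>
      have h1 := hrec.2 (2 * m + 1)
      rw [hodd m, mul_zero, Finset.sum_range_succ', YG1_sum] at h1
      have h2 : ∑ l ∈ range m, (b (2 * m + 1 - (2 * l + 1)) * ex 2 b (2 * l + 1) +
          b (2 * m + 1 - (2 * l + 1 + 1)) * ex 2 b (2 * l + 1 + 1)) = 0 := by
        refine Finset.sum_eq_zero fun l hl => ?_
        have hlm := Finset.mem_range.1 hl
        have e : 2 * m + 1 - (2 * l + 1 + 1) = 2 * (m - l - 1) + 1 := by omega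
        rw [hodd l, mul_zero, zero_add, e, ih (m - l - 1) (by omega), zero_mul]
      rw [h2, zero_add, Nat.sub_zero, ex_zero, mul_one] at h1
      exact (mul_eq_zero.1 h1.symm).resolve_left two_ne_zero
  refine ⟨fun k => b (2 * k), ?_, ?_⟩
  · intro M ε hε
    obtain ⟨N, w, x, hA, hx⟩ := hb (2 * M) ε hε
    refine ⟨N, w, fun l => x l ^ 2, ⟨hA.1, hA.2.1, fun l => ?_⟩, fun m hm => ?_⟩
    · rw [norm_pow, hA.2.2 l, one_pow]
    · have h1 := hx (2 * m) (by omega)
      have e : mom w (fun l => x l ^ 2) m = mom w x (2 * m) := by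
        unfold mom
        refine Finset.sum_congr rfl fun l _ => ?_
        rw [← pow_mul]
      rw [e]
      exact h1
  · intro k
    refine ⟨YG1_even G hG k, ?_⟩
    have h1 := hc (2 * k + 1)
    rw [if_neg (by omega), Nat.add_sub_cancel] at h1
    rw [h1]
    congr 1
    have h2 : Rec 1 (fun k => b (2 * k)) (fun k => ex 2 b (2 * k)) := by
      refine ⟨?_, ?_⟩
      · show ex 2 b (2 * 0) = 1
        exact ex_zero 2 b
      · intro j
        have h3 := hrec.2 (2 * j)
        rw [YG1_sum] at h3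
        have h4 : ∑ l ∈ range j, (b (2 * j - 2 * l) * ex 2 b (2 * l) + b (2 * j - (2 * l + 1)) * ex 2 b (2 * l + 1)) =
            ∑ l ∈ range j, b (2 * (j - l)) * ex 2 b (2 * l) := by
          refine Finset.sum_congr rfl fun l _ => ?_
          rw [hodd l, mul_zero, add_zero, Nat.mul_sub]
        rw [h4] at h3
        show (j : ℂ) * ex 2 b (2 * j) = 1 * ∑ m ∈ range j, b (2 * (j - m)) * ex 2 b (2 * m)
        push_cast at h3
        have h5 : (2 : ℂ) ≠ 0 := two_ne_zero
        have h6 : (2 : ℂ) * ((j : ℂ) * ex 2 b (2 * j)) = 2 * ∑ m ∈ range j, b (2 * (j - m)) * ex 2 b (2 * m) := by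
          linear_combination h3
        rw [one_mul]
        exact mul_left_cancel₀ h5 h6
    exact congrFun (ex_uni 1 _ _ h2) k

end Pool.Agent.GD
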